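import Pool.Agent.Work.MP_0d14d1_co.H98.Six
import Pool.Agent.Work.MP_0d14d1_co.Rule

open Pool.Agent.Work.MP_0d14d1_co Pool.Agent.Work.MP_0d14d1_co.H98

/-- The least number of moves that sorts `n` bins of doubled balls is the least integer that is at
least `n (2 n - 1) / 3`, except for `n = 1` and `n = 6`. -/
theorem Pool.Agent.Results.MP_0d14d1_co.Exact.result (n : ℕ) (hn : 1 ≤ n) :
    IsLeast {t | SortableIn n t}
      (if n = 1 then 0 else if n = 6 then 23 else (n * (2 * n - 1) + 2) / 3) :=
  isLeast_all (fun _ h1 h2 => upper h1 h2) n hn
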